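import Pool.Agent.SchurTwoRow.Hook

/-!
Real powers of the parts: analyticity of `t ↦ ∑ λ_i ^ t`, the sign near `0`, and the fact that
the power sums determine the multiset.
-/

namespace Pool.Agent.SchurTwoRow

open Filter Topology Set

/-- `∑ x_i ^ t`. -/
noncomputable def powSum {l : ℕ} (x : Fin l → ℕ) (t : ℝ) : ℝ := ∑ i, (x i : ℝ) ^ t

/-- `x_i ^ t`. -/
noncomputable def powFun {l : ℕ} (x : Fin l → ℕ) (t : ℝ) : Fin l → ℝ := fun i => (x i : ℝ) ^ t

theorem powFun_pos {l : ℕ} {x : Fin l → ℕ} (hx : ∀ i, 0 < x i) (t : ℝ) (i : Fin l) :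
    0 < powFun x t i :=
  Real.rpow_pos_of_pos (by exact_mod_cast hx i) t

theorem psum_powFun {l : ℕ} (x : Fin l → ℕ) (t : ℝ) (k : ℕ) :
    psum k (powFun x t) = powSum x (k * t) := by
  unfold psum powSum powFun
  apply Finset.sum_congr rfl
  intro i _
  rw [mul_comm, Real.rpow_mul_natCast (Nat.cast_nonneg _)]

theorem ssum_powFun (a b : ℕ) {l : ℕ} (x : Fin l → ℕ) (t : ℝ) :
    ssum a b (powFun x t) = ((prsFun a b x).map fun m : ℕ => (m : ℝ) ^ t).sum := by
  unfold ssum prsFun powFun
  rw [Multiset.map_map]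
  apply Finset.sum_congr rfl
  intro T _
  simp only [Function.comp]
  push_cast
  rw [Real.mul_rpow (Finset.prod_nonneg fun _ _ => Nat.cast_nonneg _)
    (Finset.prod_nonneg fun _ _ => Nat.cast_nonneg _),
    Real.finsetProd_rpow _ _ fun _ _ => Nat.cast_nonneg _,
    Real.finsetProd_rpow _ _ fun _ _ => Nat.cast_nonneg _]

theorem analyticAt_powSum {l : ℕ} {x : Fin l → ℕ} (hx : ∀ i, 0 < x i) (t : ℝ) :
    AnalyticAt ℝ (powSum x) t := by
  unfold powSum
  have : (fun t : ℝ => ∑ i, (x i : ℝ) ^ t) = fun t => ∑ i, Real.exp (Real.log (x i) * t) := by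
    funext t
    apply Finset.sum_congr rfl
    intro i _
    rw [Real.rpow_def_of_pos (by exact_mod_cast hx i)]
  rw [this]
  apply Finset.analyticAt_fun_sum
  intro i _
  exact (analyticAt_const.mul analyticAt_id).rexp'

theorem dichotomy {D : ℝ → ℝ} (hD : ∀ t, AnalyticAt ℝ D t) :
    (∀ t, D t = 0) ∨ (∃ ε > 0, ∀ t, 0 < t → t < ε → 0 < D t) ∨
      (∃ ε > 0, ∀ t, 0 < t → t < ε → D t < 0) := by
  have hc : Continuous D := continuous_iff_continuousAt.2 fun t => (hD t).continuousAt
  rcases (hD 0).eventually_eq_zero_or_eventually_ne_zero with h | h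
  · left
    have hh : AnalyticOnNhd ℝ D univ := fun t _ => hD t
    have := hh.eqOn_zero_of_preconnected_of_eventuallyEq_zero isPreconnected_univ
      (mem_univ 0) h
    intro t
    exact this (mem_univ t)
  · right
    rw [eventually_nhdsWithin_iff, Metric.eventually_nhds_iff] at h
    obtain ⟨ε, hε, h⟩ := h
    have hne : ∀ t, 0 < t → t < ε → D t ≠ 0 := by
      intro t h0 h1
      apply h
      · rw [Real.dist_eq, sub_zero, abs_of_pos h0]; exact h1
      · exact h0.ne'
    have hsame : ∀ t s, 0 < t → t < ε → 0 < s → s < ε → 0 < D t → 0 < D s := by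
      intro t s ht0 ht1 hs0 hs1 hpos
      by_contra hcon
      have hneg : D s < 0 := lt_of_le_of_ne (not_lt.1 hcon) (hne s hs0 hs1)
      have h0 : (0 : ℝ) ∈ D '' uIcc s t := by
        apply intermediate_value_uIcc hc.continuousOn
        exact mem_uIcc_of_le hneg.le hpos.le
      obtain ⟨w, hw, hw0⟩ := h0
      rw [mem_uIcc] at hw
      apply hne w _ _ hw0
      · rcases hw with hw | hw <;> linarith [hw.1]
      · rcases hw with hw | hw <;> linarith [hw.2]
    rcases lt_or_gt_of_ne (hne (ε / 2) (by linarith) (by linarith)) with hs | hs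
    · right
      refine ⟨ε, hε, fun t h0 h1 => ?_⟩
      by_contra hcon
      have hpos : 0 < D t := lt_of_le_of_ne (not_lt.1 hcon) (hne t h0 h1).symm
      have := hsame t (ε / 2) h0 h1 (by linarith) (by linarith) hpos
      linarith
    · left
      exact ⟨ε, hε, fun t h0 h1 => hsame (ε / 2) t (by linarith) (by linarith) h0 h1 hs⟩

/-- Multisets of positive integers with the same sums of `k`-th powers for all `k ≥ 1` agree. -/
theorem eq_of_pow_sums {M N : Multiset ℕ} (hM : ∀ x ∈ M, 0 < x) (hN : ∀ x ∈ N, 0 < x)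
    (h : ∀ k : ℕ, (M.map fun x : ℕ => (x : ℝ) ^ (k + 1)).sum =
      (N.map fun x : ℕ => (x : ℝ) ^ (k + 1)).sum) : M = N := by
  classical
  have hpoly : ∀ f : Polynomial ℝ, (M.map fun x : ℕ => (x : ℝ) * f.eval (x : ℝ)).sum =
      (N.map fun x : ℕ => (x : ℝ) * f.eval (x : ℝ)).sum := by
    intro f
    induction f using Polynomial.induction_on' with
    | add p q hp hq =>
      simp only [Polynomial.eval_add, mul_add, Multiset.sum_map_add]
      rw [hp, hq]
    | monomial k c =>
      have := h k
      simp only [Polynomial.eval_monomial]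
      have e : ∀ x : ℕ, (x : ℝ) * (c * (x : ℝ) ^ k) = c * (x : ℝ) ^ (k + 1) := by
        intro x; ring
      simp only [e, Multiset.sum_map_mul_left, this]
  ext s
  by_cases hs : s = 0
  · subst hs
    rw [Multiset.count_eq_zero_of_notMem fun h => lt_irrefl 0 (hM 0 h),
      Multiset.count_eq_zero_of_notMem fun h => lt_irrefl 0 (hN 0 h)]
  set S := (M + N).toFinset.erase s with hS
  set f : Polynomial ℝ := ∏ c ∈ S, (Polynomial.X - Polynomial.C (c : ℝ)) with hf
  have hval : ∀ x : ℕ, f.eval (x : ℝ) = ∏ c ∈ S, ((x : ℝ) - c) := by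
    intro x; rw [hf, Polynomial.eval_prod]; simp
  have hs0 : (s : ℝ) * f.eval (s : ℝ) ≠ 0 := by
    apply mul_ne_zero (by exact_mod_cast hs)
    rw [hval, Finset.prod_ne_zero_iff]
    intro c hc
    rw [hS, Finset.mem_erase] at hc
    intro h0
    apply hc.1
    have : (s : ℝ) = c := by linarith
    exact_mod_cast this.symm
  have hsum : ∀ K : Multiset ℕ, (∀ x ∈ K, x ∈ M + N) →
      (K.map fun x : ℕ => (x : ℝ) * f.eval (x : ℝ)).sum = K.count s * (s * f.eval (s : ℝ)) := by
    intro K hK
    induction K using Multiset.induction_on with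
    | empty => simp
    | cons y K ih =>
      rw [Multiset.map_cons, Multiset.sum_cons, ih fun x hx => hK x (Multiset.mem_cons_of_mem hx)]
      by_cases hy : y = s
      · subst hy
        rw [Multiset.count_cons_self]; push_cast; ring
      · rw [Multiset.count_cons_of_ne (Ne.symm hy)]
        have : f.eval (y : ℝ) = 0 := by
          rw [hval]
          apply Finset.prod_eq_zero (i := y)
          · rw [hS, Finset.mem_erase]
            refine ⟨hy, ?_⟩
            rw [Multiset.mem_toFinset]
            exact hK y (Multiset.mem_cons_self y K)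
          · simp
        rw [this]; ring
  have h1 := hsum M fun x hx => Multiset.mem_add.2 (Or.inl hx)
  have h2 := hsum N fun x hx => Multiset.mem_add.2 (Or.inr hx)
  rw [hpoly f, h2] at h1
  have := mul_right_cancel₀ hs0 h1
  exact_mod_cast this.symm

end Pool.Agent.SchurTwoRow
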