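import Pool.Agent.SchurTwoRow.Bottom

/-!
Two partitions with the same image under the Schur partition map of a two-row shape either agree
or have different smallest parts; in the second case the two smallest parts of both are related.
-/

namespace Pool.Agent.SchurTwoRow

/-- The multiset `M` has smallest element `s` and second smallest element `S > s`, the multiset
`N` has the two smallest elements `t ≤ W`, `s < t ≤ W < S`, and `s ^ a * S ^ b = t ^ a * W ^ b`. -/
def Lower (a b : ℕ) (M N : Multiset ℕ) : Prop :=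
  ∃ s S t W : ℕ, ∃ M' N' : Multiset ℕ, 0 < s ∧ s < t ∧ t ≤ W ∧ W < S ∧
    s ^ a * S ^ b = t ^ a * W ^ b ∧ M = s ::ₘ S ::ₘ M' ∧ N = t ::ₘ W ::ₘ N' ∧
    (∀ m ∈ M', S ≤ m) ∧ (∀ m ∈ N', W ≤ m)

theorem map_univ_eq {k : ℕ} (x : Fin (k + 2) → ℕ) :
    (Finset.univ.val.map x) = x (Fin.last (k + 1)) ::ₘ x (Fin.last k).castSucc ::ₘ
      (Finset.univ.val.map fun i : Fin k => x i.castSucc.castSucc) := by
  have h1 : ∀ (n : ℕ) (z : Fin (n + 1) → ℕ), (Finset.univ.val.map z) =
      z (Fin.last n) ::ₘ (Finset.univ.val.map fun i : Fin n => z i.castSucc) := by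
    intro n z
    have h2 : ∀ (m : ℕ) (w : Fin m → ℕ), (Finset.univ.val.map w) = (List.ofFn w : Multiset ℕ) := by
      intro m w
      rw [Fin.univ_def]
      simp [List.ofFn_eq_map]
    rw [h2, h2, List.ofFn_succ']
    simp [List.concat_eq_append]
  rw [h1, h1]

theorem alternative {b c l l' : ℕ} {x : Fin l → ℕ} {y : Fin l' → ℕ} (hl : 2 ≤ l) (hl' : 2 ≤ l')
    (hx : ∀ i j, i ≤ j → x j ≤ x i) (hy : ∀ i j, i ≤ j → y j ≤ y i)
    (hx0 : ∀ i, 0 < x i) (hy0 : ∀ i, 0 < y i)
    (h : prsFun (b + 1 + c) (b + 1) x = prsFun (b + 1 + c) (b + 1) y) :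
    (Finset.univ.val.map x) = (Finset.univ.val.map y) ∨
      Lower (b + 1 + c) (b + 1) (Finset.univ.val.map x) (Finset.univ.val.map y) ∨
      Lower (b + 1 + c) (b + 1) (Finset.univ.val.map y) (Finset.univ.val.map x) := by
  have hll := length_eq (by omega) hl hl' h
  subst hll
  obtain ⟨k, rfl⟩ : ∃ k, l = k + 2 := ⟨l - 2, by omega⟩
  have aux : ∀ {x y : Fin (k + 2) → ℕ} (hx : ∀ i j, i ≤ j → x j ≤ x i)
      (hy : ∀ i j, i ≤ j → y j ≤ y i) (hx0 : ∀ i, 0 < x i)
      (h : prsFun (b + 1 + c) (b + 1) x = prsFun (b + 1 + c) (b + 1) y)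
      (hlt : x (Fin.last (k + 1)) < y (Fin.last (k + 1))),
      Lower (b + 1 + c) (b + 1) (Finset.univ.val.map x) (Finset.univ.val.map y) := by
    intro x y hx hy hx0 h hlt
    have hrel : x (Fin.last k).castSucc ^ (b + 1) * x (Fin.last (k + 1)) ^ (b + 1 + c) =
        y (Fin.last k).castSucc ^ (b + 1) * y (Fin.last (k + 1)) ^ (b + 1 + c) :=
      le_antisymm (bottom_relation hx h) (bottom_relation hy h.symm)
    have hWt : y (Fin.last (k + 1)) ≤ y (Fin.last k).castSucc := hy _ _ (Fin.le_last _)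
    have hWS : y (Fin.last k).castSucc < x (Fin.last k).castSucc := by
      by_contra hcon
      push Not at hcon
      have h1 : x (Fin.last k).castSucc ^ (b + 1) ≤ y (Fin.last k).castSucc ^ (b + 1) :=
        Nat.pow_le_pow_left hcon _
      have h2 : x (Fin.last (k + 1)) ^ (b + 1 + c) < y (Fin.last (k + 1)) ^ (b + 1 + c) :=
        Nat.pow_lt_pow_left hlt (by omega)
      have h3 : 0 < x (Fin.last k).castSucc ^ (b + 1) := pow_pos (hx0 _) _
      have h4 : x (Fin.last k).castSucc ^ (b + 1) * x (Fin.last (k + 1)) ^ (b + 1 + c) <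
          y (Fin.last k).castSucc ^ (b + 1) * y (Fin.last (k + 1)) ^ (b + 1 + c) :=
        Nat.mul_lt_mul_of_le_of_lt h1 h2 (lt_of_lt_of_le h3 h1)
      exact absurd hrel h4.ne
    refine ⟨_, _, _, _, _, _, hx0 (Fin.last (k + 1)), hlt, hWt, hWS, ?_, map_univ_eq x,
      map_univ_eq y, ?_, ?_⟩
    · rw [mul_comm, hrel, mul_comm]
    · intro m hm
      rw [Multiset.mem_map] at hm
      obtain ⟨i, _, rfl⟩ := hm
      apply hx
      rw [Fin.le_def]
      simp only [Fin.val_castSucc, Fin.val_last]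
      exact i.isLt.le
    · intro m hm
      rw [Multiset.mem_map] at hm
      obtain ⟨i, _, rfl⟩ := hm
      apply hy
      rw [Fin.le_def]
      simp only [Fin.val_castSucc, Fin.val_last]
      exact i.isLt.le
  rcases lt_trichotomy (x (Fin.last (k + 1))) (y (Fin.last (k + 1))) with hlt | heq | hgt
  · exact Or.inr (Or.inl (aux hx hy hx0 h hlt))
  · left
    rw [eq_of_last hx hy hx0 hy0 h heq]
  · exact Or.inr (Or.inr (aux hy hx hy0 h.symm hgt))

theorem prs_alternative {a b n n' : ℕ} (hb : 1 ≤ b) (hab : b ≤ a) {p : n.Partition}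
    {q : n'.Partition} (hp : 2 ≤ Multiset.card p.parts) (hq : 2 ≤ Multiset.card q.parts)
    (h : prs a b p = prs a b q) :
    p.parts = q.parts ∨ Lower a b p.parts q.parts ∨ Lower a b q.parts p.parts := by
  obtain ⟨b, rfl⟩ : ∃ b', b = b' + 1 := ⟨b - 1, by omega⟩
  obtain ⟨c, rfl⟩ : ∃ c, a = b + 1 + c := ⟨a - (b + 1), by omega⟩
  have := alternative (x := partFun p) (y := partFun q)
    (by rw [length_sortedParts]; exact hp) (by rw [length_sortedParts]; exact hq)
    (fun i j hij => partFun_anti p hij) (fun i j hij => partFun_anti q hij)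
    (partFun_pos p) (partFun_pos q) h
  rwa [map_partFun, map_partFun] at this

end Pool.Agent.SchurTwoRow
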