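import Mathlib

/-!
Schur partition maps for two-row shapes.

A filling of the two-row Young diagram of `(a, b)` with entries in `Fin l` is given by its two
rows `r : Fin a → Fin l` and `s : Fin b → Fin l`.
-/

namespace Pool.Agent.SchurTwoRow

/-- The filling of the two-row diagram `(a, b)` whose rows are `r` and `s` is a semistandard
Young tableau: both rows weakly increase, and every column with two boxes strictly increases. -/
def IsTableau {a b l : ℕ} (r : Fin a → Fin l) (s : Fin b → Fin l) : Prop :=
  (∀ i j : Fin a, i ≤ j → r i ≤ r j) ∧ (∀ i j : Fin b, i ≤ j → s i ≤ s j) ∧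
    ∀ (i : Fin a) (j : Fin b), i.val = j.val → r i < s j

open Classical in
/-- The finite set of semistandard Young tableaux of shape `(a, b)` with entries in `Fin l`. -/
noncomputable def tableaux (a b l : ℕ) : Finset ((Fin a → Fin l) × (Fin b → Fin l)) :=
  Finset.univ.filter fun T => IsTableau T.1 T.2

/-- The multiset of the products of the entries of `x` over the boxes of `T`, for `T` a
semistandard Young tableau of shape `(a, b)` with entries in `{0, …, l - 1}`, where `l` is the
length of `x`. -/
noncomputable def prsFun {l : ℕ} (a b : ℕ) (x : Fin l → ℕ) : Multiset ℕ :=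
  (tableaux a b l).val.map fun T => (∏ i, x (T.1 i)) * ∏ j, x (T.2 j)

/-- The parts of a partition in nonincreasing order. -/
noncomputable def sortedParts {n : ℕ} (p : n.Partition) : List ℕ :=
  p.parts.sort (fun x y => y ≤ x)

/-- The Schur partition map of the two-row shape `(a, b)`: the multiset of the products
`∏ λ_i ^ α_i(T)` over all semistandard Young tableaux `T` of shape `(a, b)` with entries at most
the length of `λ`. -/
noncomputable def prs {n : ℕ} (a b : ℕ) (p : n.Partition) : Multiset ℕ :=
  prsFun a b (sortedParts p).get

theorem mem_tableaux {a b l : ℕ} {T : (Fin a → Fin l) × (Fin b → Fin l)} :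
    T ∈ tableaux a b l ↔ IsTableau T.1 T.2 := by
  simp [tableaux]

/-- The parts in order, as a function. -/
noncomputable abbrev partFun {n : ℕ} (p : n.Partition) : Fin (sortedParts p).length → ℕ :=
  (sortedParts p).get

theorem coe_sortedParts {n : ℕ} (p : n.Partition) : (sortedParts p : Multiset ℕ) = p.parts := by
  unfold sortedParts
  exact Multiset.sort_eq _ _

theorem length_sortedParts {n : ℕ} (p : n.Partition) :
    (sortedParts p).length = Multiset.card p.parts := by
  rw [← coe_sortedParts p]; simp

theorem map_partFun {n : ℕ} (p : n.Partition) :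
    (Finset.univ.val.map (partFun p)) = p.parts := by
  rw [← coe_sortedParts p]
  simp only [partFun, Fin.univ_def]
  simp

theorem partFun_pos {n : ℕ} (p : n.Partition) (i : Fin (sortedParts p).length) :
    0 < partFun p i := by
  apply p.parts_pos
  rw [← map_partFun p]
  exact Multiset.mem_map_of_mem _ (Finset.mem_univ_val i)

theorem partFun_mem {n : ℕ} (p : n.Partition) (i : Fin (sortedParts p).length) :
    partFun p i ∈ p.parts := by
  rw [← map_partFun p]
  exact Multiset.mem_map_of_mem _ (Finset.mem_univ_val i)

theorem sum_partFun {n : ℕ} (p : n.Partition) : ∑ i, partFun p i = n := by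
  have h := p.parts_sum
  rw [← map_partFun p] at h
  exact h

theorem sorted_sortedParts {n : ℕ} (p : n.Partition) :
    (sortedParts p).Pairwise (fun x y => y ≤ x) := by
  unfold sortedParts
  exact Multiset.pairwise_sort _ _

theorem partFun_anti {n : ℕ} (p : n.Partition) {i j : Fin (sortedParts p).length}
    (h : i ≤ j) : partFun p j ≤ partFun p i := by
  rcases h.eq_or_lt with rfl | h
  · exact le_rfl
  · exact (List.pairwise_iff_get.1 (sorted_sortedParts p)) i j h

end Pool.Agent.SchurTwoRow
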