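import Pool.Agent.SchurTwoRow.Basic

/-!
The smallest elements of the multiset `prs` for a general two-row shape, and the fact that the
smallest part determines the partition.
-/

namespace Pool.Agent.SchurTwoRow

/-- The product of the entries of `x` over the boxes of `T`. -/
def wt {a b l : ℕ} (x : Fin l → ℕ) (T : (Fin a → Fin l) × (Fin b → Fin l)) : ℕ :=
  (∏ i, x (T.1 i)) * ∏ j, x (T.2 j)

theorem prsFun_eq {l : ℕ} (a b : ℕ) (x : Fin l → ℕ) :
    prsFun a b x = (tableaux a b l).val.map (wt x) := rfl

/-- The number of elements of `prsFun` satisfying a predicate. -/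
theorem countP_prsFun {l : ℕ} (a b : ℕ) (x : Fin l → ℕ) (p : ℕ → Prop) [DecidablePred p] :
    (prsFun a b x).countP p = ((tableaux a b l).filter fun T => p (wt x T)).card := by
  rw [prsFun_eq, Multiset.countP_map]
  rfl

/-- Tableaux with larger alphabets are more numerous. -/
theorem card_tableaux_lt {a b l l' : ℕ} (hb : 1 ≤ b) (hl : l < l') (hl' : 2 ≤ l') :
    (tableaux a b l).card < (tableaux a b l').card := by
  classical
  set f : (Fin a → Fin l) × (Fin b → Fin l) → (Fin a → Fin l') × (Fin b → Fin l') :=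
    fun T => (fun i => Fin.castLE hl.le (T.1 i), fun j => Fin.castLE hl.le (T.2 j)) with hf
  have hinj : Function.Injective f := by
    rintro ⟨r, s⟩ ⟨r', s'⟩ h
    simp only [hf, Prod.mk.injEq] at h
    refine Prod.ext ?_ ?_
    · funext i
      exact Fin.castLE_injective hl.le (congrFun h.1 i)
    · funext i
      exact Fin.castLE_injective hl.le (congrFun h.2 i)
  rw [← Finset.card_image_of_injective _ hinj]
  apply Finset.card_lt_card
  rw [Finset.ssubset_iff_of_subset]
  · refine ⟨(fun _ => ⟨0, by omega⟩, fun _ => ⟨l' - 1, by omega⟩), ?_, ?_⟩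
    · rw [mem_tableaux]
      refine ⟨fun _ _ _ => le_rfl, fun _ _ _ => le_rfl, fun _ _ _ => ?_⟩
      rw [Fin.lt_def]
      show 0 < l' - 1
      omega
    · intro hmem
      rw [Finset.mem_image] at hmem
      obtain ⟨T, _, hT⟩ := hmem
      have h2 := congrArg Prod.snd hT
      have h3 := congrArg Fin.val (congrFun h2 ⟨0, by omega⟩)
      simp only [hf, Fin.val_castLE] at h3
      have := (T.2 ⟨0, by omega⟩).isLt
      omega
  · intro T hT
    rw [Finset.mem_image] at hT
    obtain ⟨S, hS, rfl⟩ := hT
    rw [mem_tableaux] at hS ⊢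
    refine ⟨fun i j hij => ?_, fun i j hij => ?_, fun i j hij => ?_⟩
    · exact hS.1 i j hij
    · exact hS.2.1 i j hij
    · exact hS.2.2 i j hij

theorem length_eq {a b l l' : ℕ} {x : Fin l → ℕ} {y : Fin l' → ℕ} (hb : 1 ≤ b)
    (hl : 2 ≤ l) (hl' : 2 ≤ l') (h : prsFun a b x = prsFun a b y) : l = l' := by
  have hc := congrArg Multiset.card h
  rw [prsFun_eq, prsFun_eq, Multiset.card_map, Multiset.card_map] at hc
  rcases lt_trichotomy l l' with hlt | heq | hgt
  · exact absurd hc (card_tableaux_lt hb hlt hl').ne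
  · exact heq
  · exact absurd hc (card_tableaux_lt hb hgt hl).ne'

/-- Lower bound for the weights: `l = k + 2` letters, `x` nonincreasing. -/
theorem wt_lower {b c k : ℕ} {x : Fin (k + 2) → ℕ}
    (hx : ∀ i j, i ≤ j → x j ≤ x i)
    {T : (Fin (b + 1 + c) → Fin (k + 2)) × (Fin (b + 1) → Fin (k + 2))}
    (hT : T ∈ tableaux (b + 1 + c) (b + 1) (k + 2)) :
    x (T.1 (Fin.castAdd c 0)) * x (Fin.last k).castSucc ^ b *
      x (Fin.last (k + 1)) ^ (b + 1 + c) ≤ wt x T := by
  rw [mem_tableaux] at hT
  have hlast : ∀ i, x (Fin.last (k + 1)) ≤ x i := fun i => hx _ _ (Fin.le_last i)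
  unfold wt
  rw [Fin.prod_univ_add, Fin.prod_univ_succ]
  have h1 : x (Fin.last k).castSucc ^ b ≤ ∏ i : Fin b, x (T.1 (Fin.castAdd c i.succ)) := by
    calc x (Fin.last k).castSucc ^ b = ∏ _i : Fin b, x (Fin.last k).castSucc := by simp
      _ ≤ _ := by
        apply Finset.prod_le_prod'
        intro i _
        apply hx
        rw [Fin.le_def]
        have h := hT.2.2 (Fin.castAdd c i.succ) i.succ rfl
        have h2 := (T.2 i.succ).isLt
        rw [Fin.lt_def] at h
        simp only [Fin.val_castSucc, Fin.val_last]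
        omega
  have h2 : x (Fin.last (k + 1)) ^ c ≤ ∏ i : Fin c, x (T.1 (Fin.natAdd (b + 1) i)) := by
    calc x (Fin.last (k + 1)) ^ c = ∏ _i : Fin c, x (Fin.last (k + 1)) := by simp
      _ ≤ _ := Finset.prod_le_prod' fun i _ => hlast _
  have h3 : x (Fin.last (k + 1)) ^ (b + 1) ≤ ∏ i : Fin (b + 1), x (T.2 i) := by
    calc x (Fin.last (k + 1)) ^ (b + 1) = ∏ _i : Fin (b + 1), x (Fin.last (k + 1)) := by simp
      _ ≤ _ := Finset.prod_le_prod' fun i _ => hlast _
  calc x (T.1 (Fin.castAdd c 0)) * x (Fin.last k).castSucc ^ b *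
      x (Fin.last (k + 1)) ^ (b + 1 + c)
      = x (T.1 (Fin.castAdd c 0)) * x (Fin.last k).castSucc ^ b *
        x (Fin.last (k + 1)) ^ c * x (Fin.last (k + 1)) ^ (b + 1) := by
        ring
    _ ≤ _ := Nat.mul_le_mul (Nat.mul_le_mul (Nat.mul_le_mul le_rfl h1) h2) h3

/-- For every letter `κ` except the last there is a tableau with first entry `κ`, all other
entries being the last two letters. -/
theorem exists_tableau (b c k : ℕ) {κ : Fin (k + 2)} (hκ : κ.val ≤ k) :
    ∃ T ∈ tableaux (b + 1 + c) (b + 1) (k + 2), T.1 (Fin.castAdd c 0) = κ ∧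
      ∀ x : Fin (k + 2) → ℕ, wt x T = x κ * x (Fin.last k).castSucc ^ b *
        x (Fin.last (k + 1)) ^ (b + 1 + c) := by
  refine ⟨(fun i => if i.val = 0 then κ else if i.val < b + 1 then (Fin.last k).castSucc else
    Fin.last (k + 1), fun _ => Fin.last (k + 1)), ?_, ?_, ?_⟩
  · rw [mem_tableaux]
    refine ⟨?_, fun _ _ _ => le_rfl, ?_⟩
    · intro i j hij
      rw [Fin.le_def] at hij
      dsimp only
      split_ifs <;> rw [Fin.le_def] <;> simp only [Fin.val_castSucc, Fin.val_last] <;> omega
    · intro i j hij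
      have hj := j.isLt
      dsimp only
      split_ifs <;> rw [Fin.lt_def] <;> simp only [Fin.val_castSucc, Fin.val_last] <;> omega
  · simp
  · intro x
    unfold wt
    rw [Fin.prod_univ_add, Fin.prod_univ_succ]
    have h1 : ∏ i : Fin b, x (if (Fin.castAdd c i.succ).val = 0 then κ else
        if (Fin.castAdd c i.succ).val < b + 1 then (Fin.last k).castSucc else Fin.last (k + 1)) =
        x (Fin.last k).castSucc ^ b := by
      calc _ = ∏ _i : Fin b, x (Fin.last k).castSucc := by
            apply Finset.prod_congr rfl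
            intro i _
            have := i.isLt
            rw [if_neg (by simp), if_pos (by simp)]
        _ = _ := by simp
    have h2 : ∏ i : Fin c, x (if (Fin.natAdd (b + 1) i).val = 0 then κ else
        if (Fin.natAdd (b + 1) i).val < b + 1 then (Fin.last k).castSucc else Fin.last (k + 1)) =
        x (Fin.last (k + 1)) ^ c := by
      calc _ = ∏ _i : Fin c, x (Fin.last (k + 1)) := by
            apply Finset.prod_congr rfl
            intro i _
            rw [if_neg (by simp), if_neg (by simp; omega)]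
        _ = _ := by simp
    simp only [h1, h2]
    simp
    ring

/-- The core counting step: two nonincreasing sequences with the same multiset `prs` which agree
from index `K` on agree at index `K - 1`. -/
theorem bottom_step {b c k : ℕ} {x y : Fin (k + 2) → ℕ}
    (hy : ∀ i j, i ≤ j → y j ≤ y i) (hx0 : ∀ i, 0 < x i)
    (h : prsFun (b + 1 + c) (b + 1) x = prsFun (b + 1 + c) (b + 1) y)
    (K : ℕ) (hK : K ≤ k) (hagree : ∀ i : Fin (k + 2), K < i.val → x i = y i) :
    ¬ x ⟨K, by omega⟩ < y ⟨K, by omega⟩ := by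
  classical
  intro hlt
  set κ : Fin (k + 2) := ⟨K, by omega⟩ with hκ
  set m : ℕ := x κ * x (Fin.last k).castSucc ^ b * x (Fin.last (k + 1)) ^ (b + 1 + c) with hm
  have hlast : x (Fin.last (k + 1)) = y (Fin.last (k + 1)) := hagree _ (by
    rw [Fin.val_last]; omega)
  have hpen : x (Fin.last k).castSucc ≤ y (Fin.last k).castSucc := by
    rcases hK.eq_or_lt with heq | hlt2
    · have : (Fin.last k).castSucc = κ := by
        rw [hκ]; apply Fin.ext; simp [heq]
      rw [this]; exact hlt.le
    · exact (hagree _ (by simpa using hlt2)).le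
  have hc1 := countP_prsFun (b + 1 + c) (b + 1) x (fun z => z ≤ m)
  have hc2 := countP_prsFun (b + 1 + c) (b + 1) y (fun z => z ≤ m)
  rw [h, hc2] at hc1
  have hss : (tableaux (b + 1 + c) (b + 1) (k + 2)).filter (fun T => wt y T ≤ m) ⊂
      (tableaux (b + 1 + c) (b + 1) (k + 2)).filter (fun T => wt x T ≤ m) := by
    have hfirst : ∀ T ∈ tableaux (b + 1 + c) (b + 1) (k + 2), wt y T ≤ m →
        K < (T.1 (Fin.castAdd c 0)).val := by
      intro T hT hle
      by_contra hcon
      push Not at hcon
      have h1 := wt_lower hy hT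
      have h2 : x κ < y (T.1 (Fin.castAdd c 0)) :=
        lt_of_lt_of_le hlt (hy _ _ (by rw [Fin.le_def]; exact hcon))
      have h3 : m < y (T.1 (Fin.castAdd c 0)) * y (Fin.last k).castSucc ^ b *
          y (Fin.last (k + 1)) ^ (b + 1 + c) := by
        rw [hm, ← hlast]
        apply Nat.mul_lt_mul_of_pos_right _ (pow_pos (hx0 _) _)
        calc x κ * x (Fin.last k).castSucc ^ b
            < y (T.1 (Fin.castAdd c 0)) * x (Fin.last k).castSucc ^ b :=
              Nat.mul_lt_mul_of_pos_right h2 (pow_pos (hx0 _) _)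
          _ ≤ _ := Nat.mul_le_mul le_rfl (Nat.pow_le_pow_left hpen _)
      omega
    have hwt : ∀ T ∈ tableaux (b + 1 + c) (b + 1) (k + 2), wt y T ≤ m → wt x T = wt y T := by
      intro T hT hle
      have h1 := hfirst T hT hle
      rw [mem_tableaux] at hT
      unfold wt
      congr 1
      · apply Finset.prod_congr rfl
        intro i _
        apply hagree
        have := hT.1 (Fin.castAdd c 0) i (by rw [Fin.le_def]; simp)
        rw [Fin.le_def] at this
        omega
      · apply Finset.prod_congr rfl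
        intro i _
        apply hagree
        have h2 := hT.2.2 (Fin.castAdd c 0) 0 rfl
        have h3 := hT.2.1 0 i (Fin.zero_le _)
        rw [Fin.le_def] at h3
        rw [Fin.lt_def] at h2
        omega
    rw [Finset.ssubset_iff_of_subset]
    · obtain ⟨T, hT, hT0, hTw⟩ := exists_tableau b c k (κ := κ) hK
      refine ⟨T, ?_, ?_⟩
      · rw [Finset.mem_filter]
        exact ⟨hT, (hTw x).le⟩
      · rw [Finset.mem_filter]
        rintro ⟨_, hle⟩
        have := hfirst T hT hle
        rw [hT0] at this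
        exact lt_irrefl _ this
    · intro T hT
      rw [Finset.mem_filter] at hT ⊢
      refine ⟨hT.1, ?_⟩
      rw [hwt T hT.1 hT.2]
      exact hT.2
  exact absurd hc1 (Finset.card_lt_card hss).ne

/-- Two nonincreasing sequences with the same multiset `prs` and the same last entry agree. -/
theorem eq_of_last {b c k : ℕ} {x y : Fin (k + 2) → ℕ} (hx : ∀ i j, i ≤ j → x j ≤ x i)
    (hy : ∀ i j, i ≤ j → y j ≤ y i) (hx0 : ∀ i, 0 < x i) (hy0 : ∀ i, 0 < y i)
    (h : prsFun (b + 1 + c) (b + 1) x = prsFun (b + 1 + c) (b + 1) y)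
    (hl : x (Fin.last (k + 1)) = y (Fin.last (k + 1))) : x = y := by
  have key : ∀ m : ℕ, ∀ i : Fin (k + 2), k + 1 ≤ i.val + m → x i = y i := by
    intro m
    induction m with
    | zero =>
      intro i hi
      have : i = Fin.last (k + 1) := by
        apply Fin.ext
        have := i.isLt
        rw [Fin.val_last]; omega
      rw [this]; exact hl
    | succ m ih =>
      intro i hi
      rcases Nat.lt_or_ge (k + 1) (i.val + m + 1) with hlt | hge
      · exact ih i (by omega)
      · rcases Nat.eq_zero_or_pos m with rfl | hm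
        · by_cases hik : i.val = k + 1
          · exact ih i (by omega)
          · have e : i.val = k := by omega
            have h1 := bottom_step hy hx0 h k le_rfl (fun j hj => ih j (by omega))
            have h2 := bottom_step hx hy0 h.symm k le_rfl (fun j hj => (ih j (by omega)).symm)
            have e2 : i = ⟨k, by omega⟩ := Fin.ext e
            rw [e2]
            omega
        · have h1 := bottom_step hy hx0 h i.val (by omega) (fun j hj => ih j (by omega))
          have h2 := bottom_step hx hy0 h.symm i.val (by omega)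
            (fun j hj => (ih j (by omega)).symm)
          exact le_antisymm (not_lt.1 h2) (not_lt.1 h1)
  funext i
  exact key (k + 1) i (by omega)

/-- The smallest element of `prs`. -/
theorem bottom_relation {b c k k' : ℕ} {x : Fin (k + 2) → ℕ} {y : Fin (k' + 2) → ℕ}
    (hx : ∀ i j, i ≤ j → x j ≤ x i)
    (h : prsFun (b + 1 + c) (b + 1) x = prsFun (b + 1 + c) (b + 1) y) :
    x (Fin.last k).castSucc ^ (b + 1) * x (Fin.last (k + 1)) ^ (b + 1 + c) ≤
      y (Fin.last k').castSucc ^ (b + 1) * y (Fin.last (k' + 1)) ^ (b + 1 + c) := by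
  obtain ⟨T, hT, _, hTw⟩ := exists_tableau b c k' (κ := (Fin.last k').castSucc) (by simp)
  have h1 : wt y T ∈ prsFun (b + 1 + c) (b + 1) y := by
    rw [prsFun_eq]; exact Multiset.mem_map_of_mem _ hT
  rw [← h, prsFun_eq, Multiset.mem_map] at h1
  obtain ⟨S, hS, hS2⟩ := h1
  have h2 := wt_lower hx hS
  rw [hS2, hTw y] at h2
  have h3 : x (Fin.last k).castSucc ≤ x (S.1 (Fin.castAdd c 0)) := by
    apply hx
    have hS' : S ∈ tableaux (b + 1 + c) (b + 1) (k + 2) := hS
    rw [mem_tableaux] at hS'
    have h4 := hS'.2.2 (Fin.castAdd c 0) 0 rfl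
    have h5 := (S.2 0).isLt
    rw [Fin.lt_def] at h4
    rw [Fin.le_def]
    simp only [Fin.val_castSucc, Fin.val_last]
    omega
  calc x (Fin.last k).castSucc ^ (b + 1) * x (Fin.last (k + 1)) ^ (b + 1 + c)
      = x (Fin.last k).castSucc * x (Fin.last k).castSucc ^ b *
        x (Fin.last (k + 1)) ^ (b + 1 + c) := by ring
    _ ≤ x (S.1 (Fin.castAdd c 0)) * x (Fin.last k).castSucc ^ b *
        x (Fin.last (k + 1)) ^ (b + 1 + c) :=
        Nat.mul_le_mul (Nat.mul_le_mul h3 le_rfl) le_rfl
    _ ≤ _ := h2
    _ = _ := by ring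

end Pool.Agent.SchurTwoRow
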