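import Mathlib

/-!
Complete homogeneous sums, as sums over weakly increasing words, and their relation to
power sums.
-/

namespace Pool.Agent.SchurTwoRow

open Classical in
/-- Weakly increasing words of length `m` in the letters `Fin l`. -/
noncomputable def words (m l : ℕ) : Finset (Fin m → Fin l) :=
  Finset.univ.filter fun r => Monotone r

/-- The complete homogeneous symmetric polynomial of degree `m` evaluated at `u`. -/
noncomputable def hsum (m : ℕ) {l : ℕ} (u : Fin l → ℝ) : ℝ :=
  ∑ r ∈ words m l, ∏ i, u (r i)

/-- Power sums. -/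
noncomputable def psum (k : ℕ) {l : ℕ} (u : Fin l → ℝ) : ℝ := ∑ i, u i ^ k

theorem mem_words {m l : ℕ} {r : Fin m → Fin l} : r ∈ words m l ↔ Monotone r := by
  simp [words]

theorem hsum_zero {l : ℕ} (u : Fin l → ℝ) : hsum 0 u = 1 := by
  unfold hsum
  have : words 0 l = Finset.univ := by
    ext r
    simp only [mem_words, Finset.mem_univ, iff_true]
    intro i; exact i.elim0
  rw [this]
  simp

theorem hsum_succ_empty (m : ℕ) (u : Fin 0 → ℝ) : hsum (m + 1) u = 0 := by
  unfold hsum
  have : words (m + 1) 0 = ∅ := by
    ext r
    exact (r 0).elim0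
  rw [this]; simp

theorem monotone_cons_iff {m l : ℕ} (k : Fin l) (r : Fin (m + 1) → Fin l) :
    Monotone (Fin.cons k r : Fin (m + 2) → Fin l) ↔ k ≤ r 0 ∧ Monotone r := by
  constructor
  · intro h
    refine ⟨?_, ?_⟩
    · have := h (Fin.zero_le (1 : Fin (m + 2)))
      have e : (1 : Fin (m + 2)) = Fin.succ 0 := rfl
      rw [e, Fin.cons_succ] at this
      simpa using this
    · intro i j hij
      have := h (Fin.succ_le_succ_iff.2 hij)
      simpa using this
  · rintro ⟨h0, h1⟩
    intro i j
    refine Fin.cases ?_ (fun i => ?_) i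
    · intro _
      refine Fin.cases ?_ (fun j => ?_) j
      · exact le_rfl
      · simp only [Fin.cons_zero, Fin.cons_succ]
        exact h0.trans (h1 (Fin.zero_le j))
    · refine Fin.cases ?_ (fun j => ?_) j
      · intro hij
        exact absurd hij (by simp)
      · intro hij
        simp only [Fin.cons_succ]
        exact h1 (Fin.succ_le_succ_iff.1 hij)

theorem monotone_cons_zero {m l : ℕ} (r : Fin m → Fin (l + 1)) (h : Monotone r) :
    Monotone (Fin.cons 0 r : Fin (m + 1) → Fin (l + 1)) := by
  intro i j
  refine Fin.cases ?_ (fun i => ?_) i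
  · intro _
    simp only [Fin.cons_zero]
    exact Fin.zero_le _
  · refine Fin.cases ?_ (fun j => ?_) j
    · intro hij
      exact absurd hij (by simp)
    · intro hij
      simp only [Fin.cons_succ]
      exact h (Fin.succ_le_succ_iff.1 hij)

theorem hsum_succ (m : ℕ) {l : ℕ} (u : Fin (l + 1) → ℝ) :
    hsum (m + 1) u = u 0 * hsum m u + hsum (m + 1) (fun i : Fin l => u i.succ) := by
  classical
  unfold hsum
  rw [← Finset.sum_filter_add_sum_filter_not (words (m + 1) (l + 1)) (fun r => r 0 = 0)]
  congr 1
  · rw [Finset.mul_sum]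
    refine Finset.sum_nbij' (fun r => Fin.tail r) (fun r => (Fin.cons 0 r : Fin (m + 1) → Fin (l + 1)))
      ?_ ?_ ?_ ?_ ?_
    · intro r hr
      simp only [Finset.mem_filter, mem_words] at hr ⊢
      intro i j hij
      exact hr.1 (Fin.succ_le_succ_iff.2 hij)
    · intro r hr
      simp only [Finset.mem_filter, mem_words] at hr ⊢
      exact ⟨monotone_cons_zero r hr, by simp⟩
    · intro r hr
      simp only [Finset.mem_filter, mem_words] at hr
      have := Fin.cons_self_tail r
      rw [hr.2] at this
      exact this
    · intro r hr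
      simp
    · intro r hr
      simp only [Finset.mem_filter, mem_words] at hr
      rw [Fin.prod_univ_succ, hr.2]
      rfl
  · have key : ∀ r : Fin (m + 1) → Fin (l + 1), Monotone r → r 0 ≠ 0 → ∀ i, r i ≠ 0 := by
      intro r hr h0 i hi
      apply h0
      have := hr (Fin.zero_le i)
      rw [hi] at this
      exact le_antisymm this (Fin.zero_le _)
    symm
    refine Finset.sum_bij (fun r _ => fun i => (r i).succ) ?_ ?_ ?_ ?_
    · intro r hr
      simp only [Finset.mem_filter, mem_words] at hr ⊢
      exact ⟨fun i j hij => Fin.succ_le_succ_iff.2 (hr hij), Fin.succ_ne_zero _⟩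
    · intro r hr r' hr' h
      funext i
      exact Fin.succ_injective _ (congrFun h i)
    · intro r hr
      simp only [Finset.mem_filter, mem_words] at hr
      have h := key r hr.1 hr.2
      refine ⟨fun i => (r i).pred (h i), ?_, ?_⟩
      · simp only [mem_words]
        intro i j hij
        exact Fin.pred_le_pred_iff.2 (hr.1 hij)
      · funext i; simp
    · intro r hr
      rfl

open PowerSeries in
/-- Generating function of the complete homogeneous sums. -/
noncomputable def hgen {l : ℕ} (u : Fin l → ℝ) : PowerSeries ℝ := PowerSeries.mk fun m => hsum m u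

/-- Generating function of the power sums of positive degree. -/
noncomputable def pgen {l : ℕ} (u : Fin l → ℝ) : PowerSeries ℝ :=
  PowerSeries.mk fun k => if k = 0 then 0 else psum k u

theorem hgen_zero (u : Fin 0 → ℝ) : hgen u = 1 := by
  ext m
  cases m with
  | zero => simp [hgen, hsum_zero]
  | succ m => simp [hgen, hsum_succ_empty, PowerSeries.coeff_one]

theorem hgen_succ {l : ℕ} (u : Fin (l + 1) → ℝ) :
    (1 - PowerSeries.C (u 0) * PowerSeries.X) * hgen u = hgen (fun i : Fin l => u i.succ) := by
  ext m
  rw [sub_mul, one_mul, map_sub, mul_assoc, PowerSeries.coeff_C_mul]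
  cases m with
  | zero => simp [hgen, hsum_zero]
  | succ m =>
    rw [PowerSeries.coeff_succ_X_mul]
    simp only [hgen, PowerSeries.coeff_mk]
    rw [hsum_succ]; ring

theorem pgen_succ {l : ℕ} (u : Fin (l + 1) → ℝ) :
    (1 - PowerSeries.C (u 0) * PowerSeries.X) * (pgen u - pgen (fun i : Fin l => u i.succ)) =
      PowerSeries.C (u 0) * PowerSeries.X := by
  have h1 : pgen u - pgen (fun i : Fin l => u i.succ) =
      PowerSeries.mk (fun k => if k = 0 then 0 else u 0 ^ k) := by
    ext k
    simp only [pgen, map_sub, PowerSeries.coeff_mk, psum]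
    split_ifs
    · simp
    · rw [Fin.sum_univ_succ]; ring
  rw [h1]
  ext m
  rw [sub_mul, one_mul, map_sub, mul_assoc, PowerSeries.coeff_C_mul, PowerSeries.coeff_C_mul]
  cases m with
  | zero => simp
  | succ m =>
    rw [PowerSeries.coeff_succ_X_mul]
    simp only [PowerSeries.coeff_mk, PowerSeries.coeff_X]
    cases m with
    | zero => simp
    | succ m => simp [pow_succ]; ring

theorem newton_gen {l : ℕ} (u : Fin l → ℝ) :
    PowerSeries.X * PowerSeries.derivative ℝ (hgen u) = hgen u * pgen u := by
  induction l with
  | zero =>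
    rw [hgen_zero]
    have : pgen u = 0 := by
      ext k; simp [pgen, psum]
    rw [this]; simp
  | succ l ih =>
    set v : Fin l → ℝ := fun i => u i.succ with hv
    have e1 := hgen_succ u
    have e2 := pgen_succ u
    have e3 := ih v
    rw [← hv] at e1 e2
    set c : PowerSeries ℝ := PowerSeries.C (u 0) * PowerSeries.X with hc
    have dc : PowerSeries.derivative ℝ c = PowerSeries.C (u 0) := by
      rw [hc]; simp
    have e4 : PowerSeries.derivative ℝ (hgen v) =
        -(PowerSeries.C (u 0)) * hgen u + (1 - c) * PowerSeries.derivative ℝ (hgen u) := by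
      rw [← e1, Derivation.leibniz]
      simp only [map_sub, dc, smul_eq_mul]
      simp
      ring
    have hne : (1 - c) ≠ 0 := by
      intro h
      have := congrArg (PowerSeries.coeff 0) h
      simp [hc] at this
    apply mul_left_cancel₀ hne
    rw [e4, ← e1] at e3
    have e5 : PowerSeries.X * PowerSeries.C (u 0) = c := by rw [hc]; ring
    calc (1 - c) * (PowerSeries.X * PowerSeries.derivative ℝ (hgen u))
        = PowerSeries.X * (-(PowerSeries.C (u 0)) * hgen u +
            (1 - c) * PowerSeries.derivative ℝ (hgen u)) +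
            (PowerSeries.X * PowerSeries.C (u 0)) * hgen u := by ring
      _ = (1 - c) * hgen u * pgen v + c * hgen u := by rw [e3, e5]
      _ = (1 - c) * (hgen u * pgen u) := by
          linear_combination (-(hgen u)) * e2

/-- Newton's identity `m h_m = ∑_{i<m} p_{i+1} h_{m-1-i}`. -/
theorem newton (m : ℕ) {l : ℕ} (u : Fin l → ℝ) :
    (m : ℝ) * hsum m u = ∑ i ∈ Finset.range m, psum (i + 1) u * hsum (m - 1 - i) u := by
  cases m with
  | zero => simp
  | succ m =>
    have h := congrArg (PowerSeries.coeff (m + 1)) (newton_gen u)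
    rw [PowerSeries.coeff_succ_X_mul, mul_comm (hgen u), PowerSeries.coeff_mul,
      Finset.Nat.sum_antidiagonal_eq_sum_range_succ_mk, Finset.sum_range_succ'] at h
    rw [PowerSeries.coeff_derivative] at h
    simp only [hgen, pgen, PowerSeries.coeff_mk] at h
    simp only [Nat.add_eq_zero_iff, one_ne_zero, and_false, if_false] at h
    simp only [if_true, zero_mul, add_zero] at h
    rw [mul_comm]
    push_cast
    rw [h]
    apply Finset.sum_congr rfl
    intro i hi
    rw [Finset.mem_range] at hi
    congr 2
    omega

end Pool.Agent.SchurTwoRow
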