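import Pool.Agent.SchurTwoRow.Basic
import Pool.Agent.SchurTwoRow.HSum

/-!
The Schur polynomial of a hook `(a, 1)` and the propagation of positivity.
-/

namespace Pool.Agent.SchurTwoRow

/-- The Schur polynomial of shape `(a, b)` at `u`, as a sum over tableaux. -/
noncomputable def ssum (a b : ℕ) {l : ℕ} (u : Fin l → ℝ) : ℝ :=
  ∑ T ∈ tableaux a b l, (∏ i, u (T.1 i)) * ∏ j, u (T.2 j)

theorem ssum_hook (a : ℕ) {l : ℕ} (u : Fin l → ℝ) :
    ssum (a + 1) 1 u = hsum (a + 1) u * psum 1 u - hsum (a + 2) u := by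
  classical
  have h1 : hsum (a + 1) u * psum 1 u =
      ∑ q ∈ words (a + 1) l ×ˢ (Finset.univ : Finset (Fin l)), (∏ i, u (q.1 i)) * u q.2 := by
    rw [Finset.sum_product]
    unfold hsum psum
    rw [Finset.sum_mul]
    apply Finset.sum_congr rfl
    intro r _
    rw [Finset.mul_sum]
    simp
  rw [h1, ← Finset.sum_filter_add_sum_filter_not _ (fun q => q.1 0 < q.2)]
  have h2 : ssum (a + 1) 1 u =
      ∑ q ∈ (words (a + 1) l ×ˢ (Finset.univ : Finset (Fin l))).filter (fun q => q.1 0 < q.2),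
        (∏ i, u (q.1 i)) * u q.2 := by
    unfold ssum
    refine Finset.sum_bij' (fun T _ => (T.1, T.2 0)) (fun q _ => (q.1, fun _ => q.2)) ?_ ?_ ?_ ?_ ?_
    · intro T hT
      rw [mem_tableaux] at hT
      simp only [Finset.mem_filter, Finset.mem_product, mem_words, Finset.mem_univ, and_true]
      exact ⟨fun i j hij => hT.1 i j hij, hT.2.2 0 0 rfl⟩
    · intro q hq
      simp only [Finset.mem_filter, Finset.mem_product, mem_words, Finset.mem_univ, and_true] at hq
      rw [mem_tableaux]
      refine ⟨fun i j hij => hq.1 hij, fun _ _ _ => le_rfl, fun i j hij => ?_⟩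
      have : i = 0 := by
        apply Fin.ext
        rw [hij]; simp
      rw [this]; exact hq.2
    · intro T hT
      refine Prod.ext rfl ?_
      funext j
      have : j = 0 := Subsingleton.elim _ _
      rw [this]
    · intro q hq
      rfl
    · intro T hT
      simp
  have h3 : hsum (a + 2) u =
      ∑ q ∈ (words (a + 1) l ×ˢ (Finset.univ : Finset (Fin l))).filter (fun q => ¬ q.1 0 < q.2),
        (∏ i, u (q.1 i)) * u q.2 := by
    unfold hsum
    refine Finset.sum_bij' (fun r _ => (Fin.tail r, r 0))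
      (fun q _ => (Fin.cons q.2 q.1 : Fin (a + 2) → Fin l)) ?_ ?_ ?_ ?_ ?_
    · intro r hr
      rw [mem_words] at hr
      have h := Fin.cons_self_tail r
      rw [← h, monotone_cons_iff] at hr
      simp only [Finset.mem_filter, Finset.mem_product, mem_words, Finset.mem_univ, and_true, not_lt]
      exact ⟨hr.2, hr.1⟩
    · intro q hq
      simp only [Finset.mem_filter, Finset.mem_product, mem_words, Finset.mem_univ, and_true,
        not_lt] at hq
      rw [mem_words, monotone_cons_iff]
      exact ⟨hq.2, hq.1⟩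
    · intro r hr
      exact Fin.cons_self_tail r
    · intro q hq
      simp
    · intro r hr
      rw [Fin.prod_univ_succ, mul_comm]
      rfl
  rw [h2, h3]; ring

theorem hsum_one {l : ℕ} (u : Fin l → ℝ) : hsum 1 u = psum 1 u := by
  have h := newton 1 u
  simpa [hsum_zero] using h

theorem hsum_nonneg (m : ℕ) {l : ℕ} {u : Fin l → ℝ} (hu : ∀ i, 0 < u i) : 0 ≤ hsum m u :=
  Finset.sum_nonneg fun _ _ => Finset.prod_nonneg fun _ _ => (hu _).le

theorem psum_nonneg (m : ℕ) {l : ℕ} {u : Fin l → ℝ} (hu : ∀ i, 0 < u i) : 0 ≤ psum m u :=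
  Finset.sum_nonneg fun _ _ => (pow_pos (hu _) _).le

theorem ssum_nonneg (a b : ℕ) {l : ℕ} {u : Fin l → ℝ} (hu : ∀ i, 0 < u i) : 0 ≤ ssum a b u :=
  Finset.sum_nonneg fun _ _ => mul_nonneg (Finset.prod_nonneg fun _ _ => (hu _).le)
    (Finset.prod_nonneg fun _ _ => (hu _).le)

theorem hsum_succ_le (m : ℕ) {l : ℕ} {u : Fin l → ℝ} (hu : ∀ i, 0 < u i) :
    hsum (m + 1) u ≤ psum 1 u * hsum m u := by
  cases m with
  | zero => rw [hsum_zero, hsum_one, mul_one]
  | succ m =>
    have := ssum_hook m u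
    have h2 := ssum_nonneg (m + 1) 1 hu
    linarith

theorem psum_le (m : ℕ) {l : ℕ} {u : Fin l → ℝ} (hu : ∀ i, 0 < u i) :
    psum (m + 1) u ≤ (m + 1 : ℝ) * hsum (m + 1) u := by
  have h := newton (m + 1) u
  rw [Finset.sum_range_succ] at h
  have h1 : 0 ≤ ∑ i ∈ Finset.range m, psum (i + 1) u * hsum (m + 1 - 1 - i) u :=
    Finset.sum_nonneg fun i _ => mul_nonneg (psum_nonneg _ hu) (hsum_nonneg _ hu)
  simp only [add_tsub_cancel_right, tsub_self, hsum_zero, mul_one] at h h1
  push_cast at h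
  linarith

theorem psum_pos (m : ℕ) {l : ℕ} {u : Fin l → ℝ} (hu : ∀ i, 0 < u i) (hl : 0 < l) :
    0 < psum m u :=
  Finset.sum_pos (fun _ _ => pow_pos (hu _) _) ⟨⟨0, hl⟩, Finset.mem_univ _⟩

theorem psum_succ_le (m : ℕ) {l : ℕ} {u : Fin l → ℝ} (hu : ∀ i, 0 < u i) :
    psum (m + 1) u ≤ psum 1 u * psum m u := by
  unfold psum
  rw [Finset.mul_sum]
  apply Finset.sum_le_sum
  intro i _
  rw [pow_succ, mul_comm]
  apply mul_le_mul_of_nonneg_right _ (pow_pos (hu i) m).le
  have := Finset.single_le_sum (f := fun i => u i ^ 1) (fun i _ => (pow_pos (hu i) 1).le)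
    (Finset.mem_univ i)
  simpa using this

theorem newton_diff (m : ℕ) {l l' : ℕ} (u : Fin l → ℝ) (v : Fin l' → ℝ) :
    (m : ℝ) * (hsum m u - hsum m v) = ∑ i ∈ Finset.range m,
      ((psum (i + 1) u - psum (i + 1) v) * hsum (m - 1 - i) v +
        psum (i + 1) u * (hsum (m - 1 - i) u - hsum (m - 1 - i) v)) := by
  rw [mul_sub, newton m u, newton m v, ← Finset.sum_sub_distrib]
  apply Finset.sum_congr rfl
  intro i _
  ring

theorem hsum_mono (a : ℕ) {l l' : ℕ} {u : Fin l → ℝ} {v : Fin l' → ℝ} (hu : ∀ i, 0 < u i)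
    (hv : ∀ i, 0 < v i) (hD : ∀ i, i < a → psum (i + 1) v ≤ psum (i + 1) u) :
    ∀ m, m ≤ a → 0 ≤ hsum m u - hsum m v := by
  intro m
  induction m using Nat.strong_induction_on with
  | _ m ih =>
    intro hm
    rcases Nat.eq_zero_or_pos m with rfl | hpos
    · simp [hsum_zero]
    · have h := newton_diff m u v
      have h2 : 0 ≤ ∑ i ∈ Finset.range m,
          ((psum (i + 1) u - psum (i + 1) v) * hsum (m - 1 - i) v +
            psum (i + 1) u * (hsum (m - 1 - i) u - hsum (m - 1 - i) v)) := by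
        apply Finset.sum_nonneg
        intro i hi
        rw [Finset.mem_range] at hi
        apply add_nonneg
        · exact mul_nonneg (sub_nonneg.2 (hD i (by omega))) (hsum_nonneg _ hv)
        · exact mul_nonneg (psum_nonneg _ hu) (ih _ (by omega) (by omega))
      rw [← h] at h2
      have hm' : (0 : ℝ) < m := by exact_mod_cast hpos
      exact nonneg_of_mul_nonneg_right h2 hm'

theorem step (a : ℕ) {l l' : ℕ} {u : Fin l → ℝ} {v : Fin l' → ℝ} (hu : ∀ i, 0 < u i)
    (hv : ∀ i, 0 < v i) (hl : 0 < l) (h : ssum (a + 1) 1 u = ssum (a + 1) 1 v)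
    (h1 : psum 1 v < psum 1 u)
    (hD : ∀ i, 1 ≤ i → i < a → psum (i + 1) v ≤ psum (i + 1) u) :
    psum (a + 2) v < psum (a + 2) u := by
  have hD' : ∀ i, i < a → psum (i + 1) v ≤ psum (i + 1) u := by
    intro i hi
    rcases Nat.eq_zero_or_pos i with rfl | hpos
    · exact h1.le
    · exact hD i hpos hi
  have hmono := hsum_mono a hu hv hD'
  rw [ssum_hook, ssum_hook] at h
  have n1 := newton_diff (a + 2) u v
  have n2 := newton_diff (a + 1) u v
  rw [Finset.sum_range_succ, Finset.sum_range_succ'] at n1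
  rw [Finset.sum_range_succ] at n2
  simp only [show a + 2 - 1 - (a + 1) = 0 from by omega, show a + 1 - 1 - a = 0 from by omega,
    show a + 2 - 1 - 0 = a + 1 from by omega, hsum_zero, sub_self, mul_zero, add_zero,
    mul_one, zero_add] at n1 n2
  push_cast at n1 n2
  -- the final identity
  have key : psum (a + 2) u - psum (a + 2) v =
      (psum 1 u - psum 1 v) * ((a + 2) * hsum (a + 1) v + (psum (a + 1) u - psum (a + 1) v)) +
      ∑ i ∈ Finset.range a, ((psum (i + 1) u - psum (i + 1) v) *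
        (psum 1 u * hsum (a - i) v - hsum (a + 1 - i) v) +
        (psum 1 u * psum (i + 1) u - psum (i + 2) u) * (hsum (a - i) u - hsum (a - i) v)) := by
    have hF : ∑ i ∈ Finset.range a, (psum (i + 1) u - psum (i + 1) v) * hsum (a + 1 - i) v +
        (psum (a + 1) u - psum (a + 1) v) * psum 1 v =
        ∑ i ∈ Finset.range a, (psum (i + 1 + 1) u - psum (i + 1 + 1) v) * hsum (a - i) v +
        (psum 1 u - psum 1 v) * hsum (a + 1) v := by
      have t1 := Finset.sum_range_succ
        (fun i => (psum (i + 1) u - psum (i + 1) v) * hsum (a + 1 - i) v) a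
      have t2 := Finset.sum_range_succ'
        (fun i => (psum (i + 1) u - psum (i + 1) v) * hsum (a + 1 - i) v) a
      simp only [show a + 1 - a = 1 from by omega, hsum_one, Nat.add_sub_add_right, zero_add,
        Nat.sub_zero] at t1 t2
      rw [← t1, t2]
    have g1 : ∑ i ∈ Finset.range a, ((psum (i + 1) u - psum (i + 1) v) *
        (psum 1 u * hsum (a - i) v - hsum (a + 1 - i) v) +
        (psum 1 u * psum (i + 1) u - psum (i + 2) u) * (hsum (a - i) u - hsum (a - i) v)) =
        psum 1 u * (∑ i ∈ Finset.range a, ((psum (i + 1) u - psum (i + 1) v) * hsum (a - i) v +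
          psum (i + 1) u * (hsum (a - i) u - hsum (a - i) v))) -
        (∑ i ∈ Finset.range a, (psum (i + 1) u - psum (i + 1) v) * hsum (a + 1 - i) v) -
        ∑ i ∈ Finset.range a, psum (i + 1 + 1) u * (hsum (a - i) u - hsum (a - i) v) := by
      rw [Finset.mul_sum, ← Finset.sum_sub_distrib, ← Finset.sum_sub_distrib]
      apply Finset.sum_congr rfl
      intro i _
      ring
    rw [g1]
    rw [Finset.sum_add_distrib] at n1
    linear_combination (-1 : ℝ) * n1 + psum 1 u * n2 + hF - (a + 2 : ℝ) * h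
  have hpos : 0 ≤ ∑ i ∈ Finset.range a, ((psum (i + 1) u - psum (i + 1) v) *
        (psum 1 u * hsum (a - i) v - hsum (a + 1 - i) v) +
        (psum 1 u * psum (i + 1) u - psum (i + 2) u) * (hsum (a - i) u - hsum (a - i) v)) := by
    apply Finset.sum_nonneg
    intro i hi
    rw [Finset.mem_range] at hi
    apply add_nonneg
    · apply mul_nonneg (sub_nonneg.2 (hD' i hi))
      have := hsum_succ_le (a - i) hv
      rw [show a - i + 1 = a + 1 - i from by omega] at this
      have h3 : psum 1 v * hsum (a - i) v ≤ psum 1 u * hsum (a - i) v :=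
        mul_le_mul_of_nonneg_right h1.le (hsum_nonneg _ hv)
      linarith
    · apply mul_nonneg
      · have := psum_succ_le (i + 1) hu
        linarith
      · exact hmono _ (by omega)
  have h5 : psum (a + 1) v ≤ (a + 1 : ℝ) * hsum (a + 1) v := psum_le a hv
  have h6 : 0 < psum (a + 1) u := psum_pos _ hu hl
  have h7 : 0 ≤ hsum (a + 1) v := hsum_nonneg _ hv
  have h8 : 0 < (psum 1 u - psum 1 v) *
      ((a + 2) * hsum (a + 1) v + (psum (a + 1) u - psum (a + 1) v)) := by
    apply mul_pos (sub_pos.2 h1)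
    nlinarith
  linarith

end Pool.Agent.SchurTwoRow
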